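import Pool.Agent.Lib.MP_b5021c_nt.IfaceO4V
import Pool.Agent.Lib.MP_b5021c_nt.SF.H38.Nbz
import Pool.Agent.Lib.MP_b5021c_nt.O1.H12.Mas
import Pool.Agent.Lib.MP_b5021c_nt.KO.H67.Bas

/-!
# Board b5, ALL `θ`, K ODD, row O4_NA (helper12): there is a big factor at the A-load

If all factors are small then `V_0 = - z E`, `E` zero-free in the closed disc.  A reciprocal
numerator is divisible by the primitive part of `V_0`, so `V_0 ∣ n p`, `n = E(0)`: the masses with
the weight `n` are integral, `2j ≤ ∑ (1 + rk T_i) ≤ 2 (1/a - a) - n < 2j + 2 - n`.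
-/

namespace Pool.Agent.B5.O4.H12

open scoped LaurentPolynomial
open Polynomial Pool.Agent.B5 Pool.Agent.B5.KE
open Pool.Agent.B5.Nr.Sch (Loc)
open Pool.Agent.B5.H40 (uT)

/-- A primitive polynomial without zeros in the closed disc divides its reciprocal numerators. -/
theorem pp_dvd {E : ℤ[X]} (hp : E.IsPrimitive) (hz : ∀ z : ℂ, ‖z‖ ≤ 1 → aeval z E ≠ 0)
    {p r : RO ℤ} (h : p * rsh (toLaurent E : RO ℤ) = (toLaurent E : RO ℤ) * r) :
    (toLaurent E : RO ℤ) ∣ p := by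
  obtain ⟨n, P, hP⟩ := LaurentPolynomial.exists_T_pow p
  obtain ⟨m, R, hR⟩ := LaurentPolynomial.exists_T_pow r
  have hrev : (toLaurent E.reverse : RO ℤ) =
      rsh (toLaurent E : RO ℤ) * LaurentPolynomial.T E.natDegree := by
    rw [LaurentPolynomial.toLaurent_reverse, rsh_int]
  have hT : ∀ a b : ℤ, (LaurentPolynomial.T a * LaurentPolynomial.T b : RO ℤ) =
      LaurentPolynomial.T (a + b) := fun a b => (LaurentPolynomial.T_add a b).symm
  -- the identity of polynomials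
  have hpol : P * (E.reverse * X ^ m) = E * (R * X ^ (n + E.natDegree)) := by
    apply toLaurent_injective
    simp only [map_mul, hP, hR, hrev, toLaurent_X_pow]
    have e1 : p * LaurentPolynomial.T (n : ℤ) * (rsh (toLaurent E : RO ℤ) *
        LaurentPolynomial.T (E.natDegree : ℤ) * LaurentPolynomial.T ((m : ℕ) : ℤ)) =
        (p * rsh (toLaurent E : RO ℤ)) * (LaurentPolynomial.T (n : ℤ) *
          LaurentPolynomial.T (E.natDegree : ℤ) * LaurentPolynomial.T (m : ℤ)) := by ring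
    have e2 : (toLaurent E : RO ℤ) * (r * LaurentPolynomial.T (m : ℤ) *
        LaurentPolynomial.T (((n + E.natDegree : ℕ)) : ℤ)) =
        (toLaurent E : RO ℤ) * r * (LaurentPolynomial.T (n : ℤ) *
          LaurentPolynomial.T (E.natDegree : ℤ) * LaurentPolynomial.T (m : ℤ)) := by
      rw [show (((n + E.natDegree : ℕ)) : ℤ) = (n : ℤ) + (E.natDegree : ℤ) by push_cast; rfl,
        ← hT]
      ring
    rw [e1, e2, h]
  -- over `ℂ`
  set Ec : ℂ[X] := E.map (Int.castRingHom ℂ) with hEc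
  have hev : ∀ z : ℂ, Ec.eval z = aeval z E := by
    intro z
    rw [hEc, eval_map, aeval_def]
    rfl
  have hE0 : E.coeff 0 ≠ 0 := by
    intro h0
    apply hz 0 (by simp)
    rw [← coeff_zero_eq_aeval_zero', h0, map_zero]
  have hcop : IsCoprime Ec ((E.reverse * X ^ m).map (Int.castRingHom ℂ)) := by
    rw [isCoprime_iff_aeval_ne_zero_of_isAlgClosed ℂ ℂ]
    intro z
    rcases le_or_gt ‖z‖ 1 with h1 | h1
    · left
      rw [coe_aeval_eq_eval, hev]
      exact hz z h1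
    · right
      have hz0 : z ≠ 0 := by
        intro h0
        rw [h0, norm_zero] at h1
        linarith
      rw [coe_aeval_eq_eval, Polynomial.map_mul, Polynomial.map_pow, map_X, eval_mul, eval_pow,
        eval_X]
      refine mul_ne_zero ?_ (pow_ne_zero _ hz0)
      intro h2
      have : Invertible z⁻¹ := invertibleOfNonzero (inv_ne_zero hz0)
      have h4 := (eval₂_reverse_eq_zero_iff (Int.castRingHom ℂ) z⁻¹ E).mp (by
        rw [invOf_eq_inv, inv_inv, ← eval_map]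
        exact h2)
      refine hz z⁻¹ ?_ h4
      rw [norm_inv]
      exact inv_le_one_of_one_le₀ h1.le
  have hd : Ec ∣ P.map (Int.castRingHom ℂ) := by
    refine hcop.dvd_of_dvd_mul_right ?_
    rw [← Polynomial.map_mul, hpol, Polynomial.map_mul]
    exact Dvd.intro _ rfl
  have hdQ : E.map (Int.castRingHom ℚ) ∣ P.map (Int.castRingHom ℚ) := by
    rw [← map_dvd_map' (algebraMap ℚ ℂ), Polynomial.map_map, Polynomial.map_map]
    have h5 : (algebraMap ℚ ℂ).comp (Int.castRingHom ℚ) = Int.castRingHom ℂ :=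
      RingHom.ext_int _ _
    rw [h5]
    exact hd
  have hdZ : E ∣ P := (IsPrimitive.Int.dvd_iff_map_cast_dvd_map_cast E P hp).mpr hdQ
  obtain ⟨K, hK⟩ := hdZ
  refine ⟨toLaurent K * LaurentPolynomial.T (-(n : ℤ)), ?_⟩
  have h6 : p = toLaurent P * LaurentPolynomial.T (-(n : ℤ)) := by
    rw [hP, mul_assoc, ← LaurentPolynomial.T_add, add_neg_cancel, LaurentPolynomial.T_zero, mul_one]
  rw [h6, hK, map_mul]
  ring

/-- `z E ∣ E(0) p` for the reciprocal numerators `p` of `z E`. -/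
theorem dvd_rec {E : ℤ[X]} (hz : ∀ z : ℂ, ‖z‖ ≤ 1 → aeval z E ≠ 0) {c p p' : RO ℤ} {u : (RO ℤ)ˣ}
    (hc : c = (u : RO ℤ) * toLaurent E) (h : p * rsh c = rsh p' * c) :
    c ∣ LaurentPolynomial.C (E.coeff 0) * p := by
  have hE : E ≠ 0 := by
    rintro rfl
    exact hz 0 (by simp) (by simp)
  set d : ℤ := E.content with hd
  set E1 : ℤ[X] := E.primPart with hE1
  have hEd : E = C d * E1 := E.eq_C_content_mul_primPart
  have hd0 : d ≠ 0 := by
    rw [hd, Ne, content_eq_zero_iff]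
    exact hE
  have hz1 : ∀ z : ℂ, ‖z‖ ≤ 1 → aeval z E1 ≠ 0 := by
    intro z hz' h0
    apply hz z hz'
    rw [hEd, map_mul, h0, mul_zero]
  have hcd : c = (u : RO ℤ) * (LaurentPolynomial.C d * toLaurent E1) := by
    rw [hc, hEd, map_mul, toLaurent_C]
  have hrC : rsh (LaurentPolynomial.C d : RO ℤ) = LaurentPolynomial.C d := by
    rw [rsh_int]
    exact LaurentPolynomial.invert_C d
  have hruu : rsh (u : RO ℤ) * rsh ((u⁻¹ : (RO ℤ)ˣ) : RO ℤ) = 1 := by
    rw [← map_mul, Units.mul_inv, map_one]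
  have hCd0 : (LaurentPolynomial.C d : RO ℤ) ≠ 0 := by
    intro h0
    apply hd0
    rw [← toLaurent_C, ← map_zero (toLaurent (R := ℤ))] at h0
    exact C_eq_zero.mp (toLaurent_injective h0)
  -- cancel
  have h2 : p * rsh (toLaurent E1 : RO ℤ) = (toLaurent E1 : RO ℤ) *
      (rsh p' * (u : RO ℤ) * rsh ((u⁻¹ : (RO ℤ)ˣ) : RO ℤ)) := by
    apply mul_left_cancel₀ hCd0
    rw [hcd, map_mul, map_mul, hrC] at h
    calc LaurentPolynomial.C d * (p * rsh (toLaurent E1 : RO ℤ))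
        = (p * (rsh (u : RO ℤ) * (LaurentPolynomial.C d * rsh (toLaurent E1 : RO ℤ)))) *
            rsh ((u⁻¹ : (RO ℤ)ˣ) : RO ℤ) := by
          linear_combination (-(LaurentPolynomial.C d * (p * rsh (toLaurent E1 : RO ℤ)))) * hruu
      _ = (rsh p' * ((u : RO ℤ) * (LaurentPolynomial.C d * toLaurent E1))) *
            rsh ((u⁻¹ : (RO ℤ)ˣ) : RO ℤ) := by rw [h]
      _ = _ := by ring
  obtain ⟨w, hw⟩ := pp_dvd (E.isPrimitive_primPart) hz1 h2
  obtain ⟨k, hk⟩ : d ∣ E.coeff 0 := content_dvd_coeff 0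
  refine ⟨((u⁻¹ : (RO ℤ)ˣ) : RO ℤ) * LaurentPolynomial.C k * w, ?_⟩
  rw [hcd, hw, hk, map_mul]
  have huu : (u : RO ℤ) * ((u⁻¹ : (RO ℤ)ˣ) : RO ℤ) = 1 := Units.mul_inv u
  linear_combination (-(LaurentPolynomial.C d * LaurentPolynomial.C k * (toLaurent E1 * w))) * huu

/-- (O4_NA) -/
theorem o4na (hDus : DusS) (hTpf : TpfS) (hTpw : TpwS) (hPsn : PsnS) (hSnr : Nr.SnrS)
    (hEv : EvRS) : O4naS := by
  intro P L _ _ _ _ _ phi D q f E a p j eta g Cs S0 S1 e0 e1 i0 h c n G K fd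
  by_contra hcon
  push Not at hcon
  obtain ⟨b, fk, e, lam, hT, hrank⟩ := H38n.tp_data hDus hTpf fd (fun i => not_lt.mpr (hcon i))
  obtain ⟨ha0, ha2, hθ2, hθ⟩ := KO67.ko_num K.kc.ko
  have hR := K.r0
  have hu := K.o.f0
  have hv0 := V0_A hR
  have hqE : q - f = -(X * E) := by rw [← K.eq]; ring
  have hVu : D.coeff 0 + ((-e0 : (RO ℤ)ˣ) : RO ℤ) * D.coeff S0 =
      ((-uT (1 : ℤˣ) 1 : (RO ℤ)ˣ) : RO ℤ) * toLaurent E := by
    rw [hv0, hqE, map_neg, map_mul, toLaurent_X, Units.val_neg]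
    simp [uT]
  rw [hVu] at hT
  obtain ⟨hEv1, -, -, -⟩ := hEv ℤ
  have hevp : ∀ (z : Circle) (p : ℤ[X]), evR z (toLaurent p : RO ℤ) = aeval (z : ℂ) p := by
    intro z p
    have h1 := H70.evR_T_mul z 0 p
    rw [LaurentPolynomial.T_zero, one_mul, zpow_zero, one_mul, ev_map] at h1
    exact h1
  have hVz : ∀ z : Circle, evR z (((-uT (1 : ℤˣ) 1 : (RO ℤ)ˣ) : RO ℤ) * toLaurent E) ≠ 0 := by
    intro z
    rw [← hVu, hv0, hqE, hevp, map_neg, map_mul, aeval_X]
    exact neg_ne_zero.mpr (mul_ne_zero (Circle.coe_ne_zero z) (K.ez _ (Circle.norm_coe z).le))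
  obtain ⟨nn, hnn⟩ : ∃ nn : ℕ, (nn : ℤ) = E.coeff 0 :=
    ⟨(E.coeff 0).toNat, Int.toNat_of_nonneg (by have := K.n2; omega)⟩
  have hn2 : 2 ≤ nn := by have := K.n2; omega
  have hevC : ∀ z : Circle, evR z (LaurentPolynomial.C (E.coeff 0) : RO ℤ) = (nn : ℂ) := by
    intro z
    rw [← hnn]
    have h1 := hevp z (C (nn : ℤ))
    rw [toLaurent_C] at h1
    rw [h1, aeval_C]
    simp
  obtain ⟨T, hT0, hTp, hTe, hTr⟩ := hTpw (Ker (co phi i0)) 1 lam (res (Ker (co phi i0)) D)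
    (((-uT (1 : ℤˣ) 1 : (RO ℤ)ˣ) : RO ℤ) * toLaurent E) (LaurentPolynomial.C (E.coeff 0)) n b fk e
    hT (by
      intro h0
      have h1 := hevC 1
      rw [h0, map_zero] at h1
      have : (nn : ℂ) = 0 := h1.symm
      have h2 : nn = 0 := by exact_mod_cast this
      omega) (by
      intro z
      rw [hevC]
      exact ⟨by simp, by simp⟩) (by
      intro p1 p2 h12 _
      exact dvd_rec K.ez rfl h12) (by
      apply ContinuousOn.circleIntegrable'
      apply Complex.continuous_re.comp_continuousOn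
      refine ContinuousOn.div (H27.cont_evL _) (H27.cont_evL _) ?_
      intro z hz h0
      have hz1 : ‖z‖ = 1 := by simpa using hz
      obtain ⟨zc, hzc⟩ : ∃ zc : Circle, (zc : ℂ) = z :=
        ⟨⟨z, mem_sphere_zero_iff_norm.mpr hz1⟩, rfl⟩
      rw [← hzc, hEv1] at h0
      exact hVz zc h0)
  have hB0 : (res (Ker (co phi i0)) D).coeff 0 = toLaurent q := hR.D0
  -- the masses
  have hle : ∀ z : Circle, (∑ i ∈ (Finset.univ : Finset (Fin n)),
      (evR z ((T i).coeff 0)).re / ((nn : ℕ) : ℝ)) *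
        ‖evR z (toLaurent (q - f) : RO ℤ)‖ ^ 2 ≤
      2 * (evR z (toLaurent q : RO ℤ) *
        (starRingEnd ℂ) (evR z (toLaurent (q - f) : RO ℤ))).re -
        ‖evR z (toLaurent (q - f) : RO ℤ)‖ ^ 2 := by
    intro z
    have h1 := hTe z (hVz z)
    rw [← hVu, hv0, hB0, map_mul, hevC, map_sum, Complex.re_sum] at h1
    have hV0 : evR z (toLaurent (q - f) : RO ℤ) ≠ 0 := by
      have := hVz z
      rwa [← hVu, hv0] at this
    set V : ℂ := evR z (toLaurent (q - f) : RO ℤ) with hV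
    set Q : ℂ := evR z (toLaurent q : RO ℤ) with hQ
    have hVp : 0 < ‖V‖ ^ 2 := by positivity
    have hnr : (0 : ℝ) < nn := by exact_mod_cast (by omega : 0 < nn)
    have h2 : (Q / V).re * ‖V‖ ^ 2 = (Q * (starRingEnd ℂ) V).re := by
      rw [div_eq_mul_inv, Complex.inv_def, Complex.normSq_eq_norm_sq]
      have h3 : Q * ((starRingEnd ℂ) V * ((‖V‖ ^ 2)⁻¹ : ℝ)) =
          (((‖V‖ ^ 2)⁻¹ : ℝ) : ℂ) * (Q * (starRingEnd ℂ) V) := by ring
      rw [h3, Complex.re_ofReal_mul]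
      field_simp
    have h4 : ((nn : ℂ) * Q / V).re = nn * (Q / V).re := by
      rw [mul_div_assoc]
      have : ((nn : ℂ)) = ((nn : ℝ) : ℂ) := by push_cast; rfl
      rw [this, Complex.re_ofReal_mul]
    have h5 : ((nn : ℂ)).re = (nn : ℝ) := by simp
    rw [h4, h5] at h1
    push_cast at h1
    rw [← Finset.sum_div]
    have h6 : (∑ i, (evR z ((T i).coeff 0)).re) = nn * (2 * (Q / V).re - 1) := by linarith
    rw [h6, mul_div_cancel_left₀ _ hnr.ne', sub_mul, one_mul, mul_assoc, h2]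
  have h3 := O1.H12.mas_le hPsn hR.loc hu hR.ne Finset.univ (fun i => (T i).coeff 0)
    (fun _ => nn) hle
  have hE0 : f.coeff 1 - q.coeff 1 = E.coeff 0 := by
    have := congrArg (fun r : ℤ[X] => r.coeff 1) K.eq
    simpa [coeff_X_mul] using this
  rw [hE0, ← hnn, ← Finset.sum_div] at h3
  have h4 : ((∑ i : Fin n, (1 + rk (supp (T i))) : ℕ) : ℝ) ≤
      ∑ i : Fin n, pmn (a : ℂ) ((T i).coeff 0) := by
    push_cast
    apply Finset.sum_le_sum
    intro i _
    exact (hSnr _ (T i) a (by rw [abs_of_pos ha0]; exact ha2.le) (hT0 i) (hTp i)).1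
  have hnr : (0 : ℝ) < nn := by exact_mod_cast (by omega : 0 < nn)
  have hnr2 : (2 : ℝ) ≤ nn := by exact_mod_cast hn2
  have h5 : ∑ i : Fin n, pmn (a : ℂ) ((T i).coeff 0) ≤ 2 * (a⁻¹ - a) - nn := by
    rw [div_le_iff₀ hnr] at h3
    calc ∑ i : Fin n, pmn (a : ℂ) ((T i).coeff 0)
        ≤ (2 * (a⁻¹ - a) / (((nn : ℕ) : ℤ) : ℝ) - 1) * nn := h3
      _ = _ := by
        push_cast
        field_simp
  have h6 : (Module.finrank ℤ L : ℝ) ≤ 1 + ((∑ i : Fin n, (1 + rk (supp (T i))) : ℕ) : ℝ) := by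
    have := hrank.trans (Nat.add_le_add_left hTr 1)
    exact_mod_cast this
  rw [K.kc.ko.rk] at h6
  push_cast at h6 h4
  linarith

end Pool.Agent.B5.O4.H12
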